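import Mathlib

set_option autoImplicit false

/-!
# Rainbow matchings: sets of size `Δ + 2` do not suffice

We give `19` pairwise disjoint sets `E i` of `6` edges each in a bipartite multigraph of maximum
degree `4` (no `E i` contains two parallel edges) which have no rainbow matching.

The multigraph consists of `15` copies of the 4-cycle `K_{2,2}` with multiplicities. The colour `i`
is a clause of three literals in `15` Boolean variables: the literal `(D, σ)` stands for the two
disjoint edges of the component `D` that join the left vertex `(D, ε)` to the right vertex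
`(D, ε xor σ)`, `ε` a Boolean. Any edge of type `(D, true)` meets any edge of type `(D, false)`, so a
rainbow matching would give a truth assignment satisfying all `19` clauses. But the clauses, in
which every variable occurs at most four times, are not satisfiable.
-/

namespace Pool.Agent.Results.MP_75e851_co.DegreeFour

/-- The three literals of each of the 19 clauses. -/
def lit : Fin 19 → Fin 3 → Fin 15 × Bool :=
  ![![(14, true), (0, true), (1, true)],
    ![(7, false), (12, true), (2, false)],
    ![(12, true), (4, false), (8, false)],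
    ![(4, true), (3, false), (5, true)],
    ![(9, true), (11, false), (5, false)],
    ![(10, false), (6, false), (2, true)],
    ![(14, false), (13, true), (11, false)],
    ![(7, true), (8, false), (1, false)],
    ![(11, true), (5, false), (9, true)],
    ![(3, false), (5, false), (9, false)],
    ![(4, true), (3, true), (10, true)],
    ![(14, false), (13, true), (11, true)],
    ![(2, false), (8, true), (7, true)],
    ![(7, false), (12, false), (1, false)],
    ![(0, false), (6, false), (10, false)],
    ![(4, false), (8, true), (2, true)],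
    ![(0, true), (13, false), (14, false)],
    ![(0, false), (12, false), (1, true)],
    ![(10, false), (3, true), (6, true)]]

/-- The clauses are not satisfiable. -/
theorem unsat_core (v : Fin 15 → Bool)
    (h0 : (v 14 = true ∨ v 0 = true ∨ v 1 = true))
    (h1 : (v 7 = false ∨ v 12 = true ∨ v 2 = false))
    (h2 : (v 12 = true ∨ v 4 = false ∨ v 8 = false))
    (h3 : (v 4 = true ∨ v 3 = false ∨ v 5 = true))
    (h4 : (v 9 = true ∨ v 11 = false ∨ v 5 = false))
    (h5 : (v 10 = false ∨ v 6 = false ∨ v 2 = true))
    (h6 : (v 14 = false ∨ v 13 = true ∨ v 11 = false))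
    (h7 : (v 7 = true ∨ v 8 = false ∨ v 1 = false))
    (h8 : (v 11 = true ∨ v 5 = false ∨ v 9 = true))
    (h9 : (v 3 = false ∨ v 5 = false ∨ v 9 = false))
    (h10 : (v 4 = true ∨ v 3 = true ∨ v 10 = true))
    (h11 : (v 14 = false ∨ v 13 = true ∨ v 11 = true))
    (h12 : (v 2 = false ∨ v 8 = true ∨ v 7 = true))
    (h13 : (v 7 = false ∨ v 12 = false ∨ v 1 = false))
    (h14 : (v 0 = false ∨ v 6 = false ∨ v 10 = false))
    (h15 : (v 4 = false ∨ v 8 = true ∨ v 2 = true))
    (h16 : (v 0 = true ∨ v 13 = false ∨ v 14 = false))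
    (h17 : (v 0 = false ∨ v 12 = false ∨ v 1 = true))
    (h18 : (v 10 = false ∨ v 3 = true ∨ v 6 = true))
    : False := by
  grind

theorem unsat (v : Fin 15 → Bool) (h : ∀ i, ∃ t, v (lit i t).1 = (lit i t).2) : False := by
  have h' : ∀ i, v (lit i 0).1 = (lit i 0).2 ∨ v (lit i 1).1 = (lit i 1).2 ∨
      v (lit i 2).1 = (lit i 2).2 := by
    intro i
    obtain ⟨t, ht⟩ := h i
    fin_cases t
    · exact Or.inl ht
    · exact Or.inr (Or.inl ht)
    · exact Or.inr (Or.inr ht)
  exact unsat_core v (h' 0) (h' 1) (h' 2) (h' 3) (h' 4) (h' 5) (h' 6) (h' 7) (h' 8) (h' 9) (h' 10) (h' 11) (h' 12) (h' 13) (h' 14) (h' 15) (h' 16) (h' 17) (h' 18)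

/-- Edges: colour, number of the literal, and the Boolean `ε`. -/
abbrev Edge := Fin 19 × Fin 3 × Bool

/-- Left end. -/
def lft (e : Edge) : Fin 15 × Bool := ((lit e.1 e.2.1).1, e.2.2)

/-- Right end. -/
def rgt (e : Edge) : Fin 15 × Bool := ((lit e.1 e.2.1).1, xor e.2.2 (lit e.1 e.2.1).2)

theorem deg_lft : ∀ a, (Finset.univ.filter (fun e : Edge => lft e = a)).card ≤ 4 := by
  decide +kernel

theorem deg_rgt : ∀ b, (Finset.univ.filter (fun e : Edge => rgt e = b)).card ≤ 4 := by
  decide +kernel

theorem lit_inj : ∀ i t t', (lit i t).1 = (lit i t').1 → t = t' := by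
  decide +kernel

/-- There are a finite bipartite multigraph (edges `ι`, the edge `e` joins `l e : A` to `r e : B`)
and finitely many pairwise disjoint sets `E i` of edges, none of them containing two parallel edges,
such that the union of the `E i` has maximum degree at most `Δ = 4` and every `E i` has `Δ + 2 = 6`
elements, but no matching consists of one edge from each `E i`. -/
theorem result :
    ∃ (A B ι : Type) (_ : Finite A) (_ : Finite B) (_ : Finite ι) (l : ι → A) (r : ι → B)
      (m : ℕ) (E : Fin m → Set ι),
      (∀ i j, i ≠ j → Disjoint (E i) (E j)) ∧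
      (∀ i, ∀ e ∈ E i, ∀ e' ∈ E i, l e = l e' → r e = r e' → e = e') ∧
      (∀ a, {e | e ∈ ⋃ i, E i ∧ l e = a}.ncard ≤ 4) ∧
      (∀ b, {e | e ∈ ⋃ i, E i ∧ r e = b}.ncard ≤ 4) ∧
      (∀ i, (E i).ncard = 6) ∧
      ¬ ∃ f : Fin m → ι, (∀ i, f i ∈ E i) ∧
        ∀ i j, i ≠ j → l (f i) ≠ l (f j) ∧ r (f i) ≠ r (f j) := by
  refine ⟨Fin 15 × Bool, Fin 15 × Bool, Edge, inferInstance, inferInstance, inferInstance,
    lft, rgt, 19, fun i => {e | e.1 = i}, ?_, ?_, ?_, ?_, ?_, ?_⟩
  · intro i j hij
    rw [Set.disjoint_left]
    intro e he he'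
    exact hij (he.symm.trans he')
  · rintro i ⟨e1, e2, e3⟩ he ⟨f1, f2, f3⟩ hf h1 h2
    have h3 : e1 = i := he
    have h4 : f1 = i := hf
    subst h3 h4
    simp only [lft, Prod.mk.injEq] at h1
    obtain ⟨h5, h6⟩ := h1
    have := lit_inj _ _ _ h5
    subst this h6
    rfl
  · intro a
    refine le_trans (le_of_eq ?_) (deg_lft a)
    rw [← Set.ncard_coe_finset]
    congr 1
    ext e
    simp
  · intro b
    refine le_trans (le_of_eq ?_) (deg_rgt b)
    rw [← Set.ncard_coe_finset]
    congr 1
    ext e
    simp
  · intro i
    have h1 : ({e | e.1 = i} : Set Edge) =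
        ((({i} : Finset (Fin 19)) ×ˢ (Finset.univ : Finset (Fin 3 × Bool)) : Finset Edge) : Set Edge) := by
      ext e
      simp only [Set.mem_ofPred_eq, Finset.coe_product, Finset.coe_singleton, Finset.coe_univ,
        Set.mem_prod, Set.mem_singleton_iff, Set.mem_univ, and_true]
    show ({e | e.1 = i} : Set Edge).ncard = 6
    rw [h1, Set.ncard_coe_finset, Finset.card_product]
    rfl
  · rintro ⟨f, hf, hne⟩
    have hf' : ∀ i, (f i).1 = i := hf
    -- two colours never use opposite types in one component
    have key : ∀ i j, (lit i (f i).2.1).1 = (lit j (f j).2.1).1 →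
        (lit i (f i).2.1).2 = (lit j (f j).2.1).2 := by
      intro i j h1
      by_contra h2
      have hij : i ≠ j := by
        rintro rfl
        exact h2 rfl
      obtain ⟨h3, h4⟩ := hne i j hij
      simp only [lft, rgt, hf', ne_eq, Prod.mk.injEq, h1, true_and] at h3 h4
      revert h2 h3 h4
      generalize (lit i (f i).2.1).2 = s
      generalize (lit j (f j).2.1).2 = t
      generalize (f i).2.2 = x
      generalize (f j).2.2 = y
      revert s t x y
      decide
    classical
    refine unsat (fun D => decide (∃ i, lit i (f i).2.1 = (D, true))) (fun i => ⟨(f i).2.1, ?_⟩)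
    rcases hb : (lit i (f i).2.1).2 with _ | _
    · rw [decide_eq_false_iff_not]
      rintro ⟨j, hj⟩
      have := key i j (by rw [hj])
      rw [hb, hj] at this
      exact Bool.false_ne_true this
    · rw [decide_eq_true_iff]
      exact ⟨i, Prod.ext rfl hb⟩

end Pool.Agent.Results.MP_75e851_co.DegreeFour
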